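import Mathlib

set_option autoImplicit false

namespace Pool.Agent.Results.MP_9ad7dc_al.Generate

open Module

/-- `E` is an ordering of the primitive idempotents of the multiplicity-free element `X`
(`X` has the `d+1` mutually distinct eigenvalues `θ 0, ..., θ d` in `K`, and `E i` is the product
over `j ≠ i` of `(X - θ j) / (θ i - θ j)`). -/
def IsIdempotentOrdering (K : Type*) {R : Type*} [Field K] [Ring R] [Algebra K R] {d : ℕ}
    (X : R) (E : Fin (d + 1) → R) : Prop :=
  ∃ θ : Fin (d + 1) → K, Function.Injective θ ∧ (∀ i, θ i ∈ spectrum K X) ∧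
    ∀ i, E i = Polynomial.aeval X (Lagrange.basis Finset.univ θ i)

/-- `(A; E; As; Es)` is a Leonard system of diameter `d`. -/
structure IsLeonardSystem (K : Type*) {R : Type*} [Field K] [Ring R] [Algebra K R] {d : ℕ}
    (A : R) (E : Fin (d + 1) → R) (As : R) (Es : Fin (d + 1) → R) : Prop where
  idem : IsIdempotentOrdering K A E
  idem_star : IsIdempotentOrdering K As Es
  far : ∀ i j : Fin (d + 1), 1 < |(i : ℤ) - (j : ℤ)| → E i * As * E j = 0
  near : ∀ i j : Fin (d + 1), |(i : ℤ) - (j : ℤ)| = 1 → E i * As * E j ≠ 0
  far_star : ∀ i j : Fin (d + 1), 1 < |(i : ℤ) - (j : ℤ)| → Es i * A * Es j = 0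
  near_star : ∀ i j : Fin (d + 1), |(i : ℤ) - (j : ℤ)| = 1 → Es i * A * Es j ≠ 0

section Core

variable {K V : Type*} [Field K] [AddCommGroup V] [Module K V] {d : ℕ}

/-- upper half of the Leonard condition -/
structure Half (A : End K V) (v w : Basis (Fin (d + 1)) K V) (θ : Fin (d + 1) → K) : Prop where
  eig : ∀ j, A (v j) = θ j • v j
  tri : ∀ i j : Fin (d + 1), (j : ℕ) + 1 < i → w.repr (A (w j)) i = 0
  sub : ∀ i j : Fin (d + 1), (j : ℕ) + 1 = i → w.repr (A (w j)) i ≠ 0

theorem Half.step {A : End K V} {v w : Basis (Fin (d + 1)) K V} {θ : Fin (d + 1) → K}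
    (h : Half A v w θ) (c : K) (x : V) (k : ℕ) (hk : k + 1 < d + 1)
    (htop : ∀ i : Fin (d + 1), k < i → w.repr x i = 0)
    (hne : w.repr x ⟨k, by omega⟩ ≠ 0) :
    (∀ i : Fin (d + 1), k + 1 < i → w.repr (A x - c • x) i = 0) ∧
      w.repr (A x - c • x) ⟨k + 1, hk⟩ ≠ 0 := by
  have hx : x = ∑ j, w.repr x j • w j := (w.sum_repr x).symm
  have hA : ∀ i, w.repr (A x) i = ∑ j, w.repr x j * w.repr (A (w j)) i := by
    intro i
    conv_lhs => rw [hx]
    simp only [map_sum, map_smul, Finsupp.coe_finsetSum, Finset.sum_apply, Finsupp.smul_apply,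
      smul_eq_mul]
  constructor
  · intro i hi
    rw [map_sub, map_smul, Finsupp.sub_apply, Finsupp.smul_apply, hA, htop i (by omega), smul_zero,
      sub_zero]
    apply Finset.sum_eq_zero
    intro j _
    by_cases hj : k < j
    · rw [htop j hj, zero_mul]
    · rw [h.tri i j (by omega), mul_zero]
  · rw [map_sub, map_smul, Finsupp.sub_apply, Finsupp.smul_apply, hA,
      htop ⟨k + 1, hk⟩ (by simp), smul_zero, sub_zero]
    rw [Finset.sum_eq_single (⟨k, by omega⟩ : Fin (d + 1))]
    · exact mul_ne_zero hne (h.sub _ _ rfl)
    · intro j _ hj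
      by_cases hj' : k < j
      · rw [htop j hj', zero_mul]
      · have : (j : ℕ) ≠ k := fun h' => hj (Fin.ext h')
        rw [h.tri _ j (by simp; omega), mul_zero]
    · simp

theorem Half.iterate {A : End K V} {v w : Basis (Fin (d + 1)) K V} {θ : Fin (d + 1) → K}
    (h : Half A v w θ) (J : Finset (Fin (d + 1))) :
    ∀ (x : V) (k : ℕ) (hk : k + J.card < d + 1)
      (_ : ∀ i : Fin (d + 1), k < i → w.repr x i = 0)
      (_ : w.repr x ⟨k, by omega⟩ ≠ 0)
      (_ : ∀ j ∉ J, v.repr x j = 0), False := by
  classical
  induction J using Finset.induction_on with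
  | empty =>
    intro x k hk htop hne hJ
    have : x = 0 := by
      apply v.repr.injective
      ext j
      simp [hJ j (Finset.notMem_empty j)]
    apply hne
    simp [this]
  | insert a J ha ih =>
    intro x k hk htop hne hJ
    rw [Finset.card_insert_of_notMem ha] at hk
    obtain ⟨h1, h2⟩ := h.step (θ a) x k (by omega) htop hne
    refine ih (A x - θ a • x) (k + 1) (by omega) h1 h2 ?_
    intro j hj
    have hx : x = ∑ j, v.repr x j • v j := (v.sum_repr x).symm
    have hA : v.repr (A x) j = v.repr x j * θ j := by
      conv_lhs => rw [hx]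
      simp only [map_sum, map_smul, h.eig, Basis.repr_self, Finsupp.coe_finsetSum,
        Finset.sum_apply, Finsupp.smul_apply, Finsupp.single_apply, smul_eq_mul]
      simp
    rw [map_sub, map_smul, Finsupp.sub_apply, Finsupp.smul_apply, hA]
    by_cases hja : j = a
    · subst hja; simp [mul_comm]
    · rw [hJ j (by simp [hja, hj])]; simp

/-- The support of a nonzero vector with respect to the eigenbasis `v` is large if its top index
with respect to `w` is small. -/
theorem Half.support {A : End K V} {v w : Basis (Fin (d + 1)) K V} {θ : Fin (d + 1) → K}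
    (h : Half A v w θ) (J : Finset (Fin (d + 1))) (x : V) (hx : x ≠ 0) (k : ℕ)
    (htop : ∀ i : Fin (d + 1), k ≤ i → w.repr x i = 0)
    (hJ : ∀ j ∉ J, v.repr x j = 0) : d + 2 ≤ J.card + k := by
  classical
  by_contra hcon
  push Not at hcon
  -- the true top index
  have hex : ∃ i : Fin (d + 1), w.repr x i ≠ 0 := by
    by_contra hno
    push Not at hno
    apply hx
    apply w.repr.injective
    ext j
    simp [hno j]
  let s : Finset (Fin (d + 1)) := Finset.univ.filter (fun i => w.repr x i ≠ 0)
  have hs : s.Nonempty := by
    obtain ⟨i, hi⟩ := hex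
    exact ⟨i, by simp [s, hi]⟩
  have hm := s.max'_mem hs
  have hm' : w.repr x (s.max' hs) ≠ 0 := by simpa [s] using hm
  have hle : ((s.max' hs : Fin (d + 1)) : ℕ) < k := by
    by_contra hk
    push Not at hk
    exact hm' (htop _ hk)
  refine h.iterate J x (s.max' hs : Fin (d + 1)) (by omega) ?_ ?_ hJ
  · intro i hi
    by_contra hne
    have : i ≤ s.max' hs := s.le_max' i (by simp [s, hne])
    exact absurd (Fin.lt_def.2 hi) (not_lt.2 this)
  · simpa using hm'

/-- the core statement, in coordinates -/
theorem core {A As : End K V} {v w : Basis (Fin (d + 1)) K V} {θ θs : Fin (d + 1) → K}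
    (h1 : Half A v w θ) (h2 : Half A v (w.reindex Fin.revPerm) θ)
    (h3 : Half As w (v.reindex Fin.revPerm) θs) (h4 : Half As w v θs)
    (B : Subalgebra K (End K V)) (r : Fin (d + 1))
    (hB1 : ∀ i ≤ r, ∀ T : End K V, (∀ x, T x = w.repr x i • w i) → T ∈ B)
    (hB2 : ∀ i, r ≤ i → ∀ T : End K V, (∀ x, T x = v.repr x i • v i) → T ∈ B) :
    ∀ T : End K V, T ∈ B := by
  classical
  have hfd : FiniteDimensional K V := w.finiteDimensional_of_finite
  have hrank : Module.finrank K V = d + 1 := by
    rw [Module.finrank_eq_card_basis w, Fintype.card_fin]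
  -- rank one operators
  let R : V → (V →ₗ[K] K) → End K V := fun x f => f.smulRight x
  have hR : ∀ x f y, R x f y = f y • x := fun x f y => rfl
  have hP : ∀ i ≤ r, R (w i) (w.coord i) ∈ B := fun i hi => hB1 i hi _ (fun x => rfl)
  have hQ : ∀ i, r ≤ i → R (v i) (v.coord i) ∈ B := fun i hi => hB2 i hi _ (fun x => rfl)
  have hw0 : w 0 ≠ 0 := w.ne_zero 0
  have hvd : v (Fin.last d) ≠ 0 := v.ne_zero _
  -- `w 0` has full support in `v`
  have f1 : ∀ j, v.repr (w 0) j ≠ 0 := by
    intro j hj
    have := h1.support (Finset.univ.erase j) (w 0) hw0 1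
      (fun i hi => by
        have : i ≠ 0 := by
          rintro rfl
          simp at hi
        rw [w.repr_self, Finsupp.single_eq_of_ne this])
      (fun j' hj' => by
        have : j' = j := by simpa using hj'
        rw [this]; exact hj)
    rw [Finset.card_erase_of_mem (Finset.mem_univ _), Finset.card_univ, Fintype.card_fin] at this
    omega
  -- `v d` has full support in `w`
  have f2 : ∀ i, w.repr (v (Fin.last d)) i ≠ 0 := by
    intro j hj
    have := h3.support (Finset.univ.erase j) (v (Fin.last d)) hvd 1
      (fun i hi => by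
        rw [Basis.repr_reindex_apply, v.repr_self, Finsupp.single_eq_of_ne]
        intro h
        have h' := congrArg Fin.rev h
        simp at h'
        rw [h'] at hi
        simp at hi)
      (fun j' hj' => by
        have : j' = j := by simpa using hj'
        rw [this]; exact hj)
    rw [Finset.card_erase_of_mem (Finset.mem_univ _), Finset.card_univ, Fintype.card_fin] at this
    omega
  -- `v j` has nonzero `w 0` coordinate for all j
  have f3 : ∀ j, w.repr (v j) 0 ≠ 0 := by
    intro j hj
    have := h2.support {j} (v j) (v.ne_zero j) d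
      (fun i hi => by
        have : i = Fin.last d := by
          apply Fin.ext
          simp
          omega
        rw [Basis.repr_reindex_apply, this]
        simpa using hj)
      (fun j' hj' => by
        have : j' ≠ j := by simpa using hj'
        rw [v.repr_self, Finsupp.single_eq_of_ne this])
    rw [Finset.card_singleton] at this
    omega
  -- `w i` has nonzero `v d` coordinate for all i
  have f4 : ∀ i, v.repr (w i) (Fin.last d) ≠ 0 := by
    intro j hj
    have := h4.support {j} (w j) (w.ne_zero j) d
      (fun i hi => by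
        have : i = Fin.last d := by
          apply Fin.ext
          simp
          omega
        rw [this]
        exact hj)
      (fun j' hj' => by
        have : j' ≠ j := by simpa using hj'
        rw [w.repr_self, Finsupp.single_eq_of_ne this])
    rw [Finset.card_singleton] at this
    omega
  -- the mixed family is a basis
  let b : Fin (d + 1) → V := fun i => if i < r then w i else v i
  have hli : LinearIndependent K b := by
    rw [Fintype.linearIndependent_iff]
    intro g hg
    let x : V := ∑ i, (if i < r then g i else 0) • w i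
    let y : V := ∑ i, (if i < r then 0 else g i) • v i
    have hxy : x + y = 0 := by
      rw [← hg]
      simp only [x, y, ← Finset.sum_add_distrib]
      apply Finset.sum_congr rfl
      intro i _
      by_cases hi : i < r <;> simp [b, hi]
    have hwx : ∀ i, w.repr x i = if i < r then g i else 0 := by
      intro i
      simp only [x, map_sum, map_smul, Finsupp.coe_finsetSum, Finset.sum_apply,
        Finsupp.smul_apply, smul_eq_mul, Basis.repr_self, Finsupp.single_apply]
      simp
    have hvy : ∀ i, v.repr y i = if i < r then 0 else g i := by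
      intro i
      simp only [y, map_sum, map_smul, Finsupp.coe_finsetSum, Finset.sum_apply,
        Finsupp.smul_apply, smul_eq_mul, Basis.repr_self, Finsupp.single_apply]
      simp
    have hyx : y = -x := by rw [eq_neg_iff_add_eq_zero, add_comm]; exact hxy
    have hx0 : x = 0 := by
      by_contra hne
      have := h1.support (Finset.univ.filter (fun j => r ≤ j)) x hne r
        (fun i hi => by
          rw [hwx, if_neg]
          rw [not_lt]
          exact Fin.le_def.2 hi)
        (fun j hj => by
          have hj' : j < r := by simpa using hj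
          have h5 := hvy j
          rw [hyx, if_pos hj', map_neg, Finsupp.neg_apply, neg_eq_zero] at h5
          exact h5)
      have hcard : (Finset.univ.filter (fun j => r ≤ j)).card = d + 1 - r := by
        rw [show (Finset.univ.filter (fun j => r ≤ j)) = Finset.Ici r by ext; simp]
        exact Fin.card_Ici r
      rw [hcard] at this
      have := r.isLt
      omega
    intro i
    by_cases hi : i < r
    · have := hwx i
      rw [hx0, if_pos hi] at this
      simpa using this.symm
    · have := hvy i
      rw [hyx, hx0, if_neg hi] at this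
      simpa using this.symm
  have hspan : Submodule.span K (Set.range b) = ⊤ := by
    apply hli.span_eq_top_of_card_eq_finrank
    rw [hrank, Fintype.card_fin]
  -- step 1 : all R x (w.coord 0) lie in B
  have s1 : ∀ x, R x (w.coord 0) ∈ B := by
    let X : Submodule K V :=
      { carrier := {x | R x (w.coord 0) ∈ B}
        zero_mem' := by
          have : R 0 (w.coord 0) = 0 := by ext y; simp [hR]
          simp only [Set.mem_ofPred_eq, this]
          exact B.zero_mem
        add_mem' := by
          intro x y hx hy
          have : R (x + y) (w.coord 0) = R x (w.coord 0) + R y (w.coord 0) := by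
            ext z; simp [hR, smul_add]
          simp only [Set.mem_ofPred_eq, this]
          exact B.add_mem hx hy
        smul_mem' := by
          intro c x hx
          have : R (c • x) (w.coord 0) = c • R x (w.coord 0) := by
            ext z; rw [hR, LinearMap.smul_apply, hR, smul_comm]
          simp only [Set.mem_ofPred_eq, this]
          exact B.smul_mem hx c }
    have hX0 : w 0 ∈ X := hP 0 (Fin.zero_le _)
    have hXv : ∀ j, r ≤ j → v j ∈ X := by
      intro j hj
      have h5 : R (v j) (v.coord j) * R (w 0) (w.coord 0) ∈ B := B.mul_mem (hQ j hj) hX0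
      have h6 : R (v j) (v.coord j) * R (w 0) (w.coord 0) =
          (v.repr (w 0) j) • R (v j) (w.coord 0) := by
        ext z
        simp [hR, Module.End.mul_apply, smul_smul, mul_comm]
      rw [h6] at h5
      have h7 := B.smul_mem h5 (v.repr (w 0) j)⁻¹
      rw [smul_smul, inv_mul_cancel₀ (f1 j), one_smul] at h7
      exact h7
    have hXw : ∀ i, i ≤ r → w i ∈ X := by
      intro i hi
      have h5 : R (w i) (w.coord i) * R (v (Fin.last d)) (w.coord 0) ∈ B :=
        B.mul_mem (hP i hi) (hXv (Fin.last d) (Fin.le_last r))
      have h6 : R (w i) (w.coord i) * R (v (Fin.last d)) (w.coord 0) =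
          (w.repr (v (Fin.last d)) i) • R (w i) (w.coord 0) := by
        ext z
        simp [hR, Module.End.mul_apply, smul_smul, mul_comm]
      rw [h6] at h5
      have h7 := B.smul_mem h5 (w.repr (v (Fin.last d)) i)⁻¹
      rw [smul_smul, inv_mul_cancel₀ (f2 i), one_smul] at h7
      exact h7
    have hXtop : X = ⊤ := by
      rw [eq_top_iff, ← hspan, Submodule.span_le]
      rintro _ ⟨i, rfl⟩
      by_cases hi : i < r
      · simp only [b, hi, if_true]
        exact hXw i hi.le
      · simp only [b, hi, if_false]
        exact hXv i (not_lt.1 hi)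
    intro x
    have : x ∈ X := by rw [hXtop]; trivial
    exact this
  -- step 2 : all R x (v.coord j), r ≤ j, lie in B
  have s2 : ∀ j, r ≤ j → ∀ x, R x (v.coord j) ∈ B := by
    intro j hj x
    have h5 : R x (w.coord 0) * R (v j) (v.coord j) ∈ B := B.mul_mem (s1 x) (hQ j hj)
    have h6 : R x (w.coord 0) * R (v j) (v.coord j) = (w.repr (v j) 0) • R x (v.coord j) := by
      ext z
      simp [hR, Module.End.mul_apply, smul_smul, mul_comm]
    rw [h6] at h5
    have h7 := B.smul_mem h5 (w.repr (v j) 0)⁻¹
    rw [smul_smul, inv_mul_cancel₀ (f3 j), one_smul] at h7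
    exact h7
  have s3 : ∀ i, i ≤ r → ∀ x, R x (w.coord i) ∈ B := by
    intro i hi x
    have h5 : R x (v.coord (Fin.last d)) * R (w i) (w.coord i) ∈ B :=
      B.mul_mem (s2 _ (Fin.le_last r) x) (hP i hi)
    have h6 : R x (v.coord (Fin.last d)) * R (w i) (w.coord i) =
        (v.repr (w i) (Fin.last d)) • R x (w.coord i) := by
      ext z
      simp [hR, Module.End.mul_apply, smul_smul, mul_comm]
    rw [h6] at h5
    have h7 := B.smul_mem h5 (v.repr (w i) (Fin.last d))⁻¹
    rw [smul_smul, inv_mul_cancel₀ (f4 i), one_smul] at h7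
    exact h7
  -- the mixed coordinates
  let h : V →ₗ[K] (Fin (d + 1) → K) :=
    LinearMap.pi (fun i => if i < r then w.coord i else v.coord i)
  have hinj : Function.Injective h := by
    rw [injective_iff_map_eq_zero]
    intro x hx
    by_contra hne
    have hx1 : ∀ i, i < r → w.repr x i = 0 := by
      intro i hi
      have := congrFun hx i
      simpa [h, hi] using this
    have hx2 : ∀ i, r ≤ i → v.repr x i = 0 := by
      intro i hi
      have := congrFun hx i
      simpa [h, not_lt.2 hi] using this
    have := h2.support (Finset.univ.filter (fun j => j < r)) x hne (d - r + 1)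
      (fun i hi => by
        rw [Basis.repr_reindex_apply]
        apply hx1
        rw [Fin.lt_def]
        simp only [Fin.revPerm_symm, Fin.revPerm_apply, Fin.val_rev]
        have := r.isLt
        have := i.isLt
        omega)
      (fun j hj => hx2 j (by simpa using hj))
    have hcard : (Finset.univ.filter (fun j => j < r)).card = r := by
      rw [show (Finset.univ.filter (fun j => j < r)) = Finset.Iio r by ext; simp]
      exact Fin.card_Iio r
    rw [hcard] at this
    have := r.isLt
    omega
  let e : V ≃ₗ[K] (Fin (d + 1) → K) :=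
    LinearEquiv.ofInjectiveOfFinrankEq h hinj (by rw [hrank, Module.finrank_fin_fun])
  intro T
  have hT : T = ∑ i, R (T (e.symm (Pi.single i 1)))
      (if i < r then w.coord i else v.coord i) := by
    ext x
    have hx : x = ∑ i, (h x i) • e.symm (Pi.single i 1) := by
      apply e.injective
      rw [map_sum]
      ext j
      simp only [map_smul, LinearEquiv.apply_symm_apply, Finset.sum_apply, Pi.smul_apply,
        Pi.single_apply, smul_eq_mul]
      simp only [mul_ite, mul_one, mul_zero, Finset.sum_ite_eq, Finset.mem_univ, if_true]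
      rfl
    conv_lhs => rw [hx]
    simp only [map_sum, map_smul, LinearMap.sum_apply, hR]
    rfl
  rw [hT]
  apply B.sum_mem
  intro i _
  by_cases hi : i < r
  · simp only [hi, if_true]
    exact s3 i hi.le _
  · simp only [hi, if_false]
    exact s2 i (not_lt.1 hi) _

/-- the eigenbasis attached to an idempotent ordering -/
theorem exists_eigenbasis [FiniteDimensional K V] (hrank : Module.finrank K V = d + 1)
    {A : End K V} {E : Fin (d + 1) → End K V} (hE : IsIdempotentOrdering K A E) :
    ∃ (v : Basis (Fin (d + 1)) K V) (θ : Fin (d + 1) → K), (∀ j, A (v j) = θ j • v j) ∧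
      ∀ i x, E i x = v.repr x i • v i := by
  obtain ⟨θ, hinj, hspec, hEi⟩ := hE
  have hev : ∀ i, ∃ x, A.HasEigenvector (θ i) x := fun i =>
    (Module.End.hasEigenvalue_iff_mem_spectrum.2 (hspec i)).exists_hasEigenvector
  choose x hx using hev
  have hli := Module.End.eigenvectors_linearIndependent' A θ hinj x hx
  let v : Basis (Fin (d + 1)) K V :=
    basisOfLinearIndependentOfCardEqFinrank hli (by rw [hrank, Fintype.card_fin])
  have hv : ∀ i, v i = x i := fun i => by simp [v]
  refine ⟨v, θ, fun j => ?_, fun i y => ?_⟩
  · rw [hv]; exact (hx j).apply_eq_smul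
  · have h1 : ∀ j, E i (v j) = if j = i then v i else 0 := by
      intro j
      rw [hEi, hv, Module.End.aeval_apply_of_hasEigenvector (hx j)]
      by_cases hji : j = i
      · subst hji
        rw [Lagrange.eval_basis_self (hinj.injOn) (Finset.mem_univ _), if_pos rfl, one_smul, hv]
      · rw [Lagrange.eval_basis_of_ne (Ne.symm hji) (Finset.mem_univ _), if_neg hji, zero_smul]
    have hy : y = ∑ j, v.repr y j • v j := (v.sum_repr y).symm
    conv_lhs => rw [hy]
    simp only [map_sum, map_smul, h1, smul_ite, smul_zero, Finset.sum_ite_eq', Finset.mem_univ,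
      if_true]

theorem end_version [FiniteDimensional K V] (hrank : Module.finrank K V = d + 1)
    {A As : End K V} {E Es : Fin (d + 1) → End K V} (h : IsLeonardSystem K A E As Es)
    (B : Subalgebra K (End K V)) (r : Fin (d + 1))
    (hB1 : ∀ i ≤ r, Es i ∈ B) (hB2 : ∀ i, r ≤ i → E i ∈ B) : B = ⊤ := by
  obtain ⟨v, θ, hvA, hvE⟩ := exists_eigenbasis hrank h.idem
  obtain ⟨w, θs, hwA, hwE⟩ := exists_eigenbasis hrank h.idem_star
  -- entries
  have hent : ∀ i j, E i * As * E j = 0 ↔ v.repr (As (v j)) i = 0 := by
    intro i j
    constructor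
    · intro h0
      have := LinearMap.congr_fun h0 (v j)
      simp only [Module.End.mul_apply, hvE, Basis.repr_self, Finsupp.single_eq_same, one_smul,
        LinearMap.zero_apply, smul_eq_zero] at this
      exact this.resolve_right (v.ne_zero i)
    · intro h0
      ext x
      simp [Module.End.mul_apply, hvE, h0]
  have hent' : ∀ i j, Es i * A * Es j = 0 ↔ w.repr (A (w j)) i = 0 := by
    intro i j
    constructor
    · intro h0
      have := LinearMap.congr_fun h0 (w j)
      simp only [Module.End.mul_apply, hwE, Basis.repr_self, Finsupp.single_eq_same, one_smul,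
        LinearMap.zero_apply, smul_eq_zero] at this
      exact this.resolve_right (w.ne_zero i)
    · intro h0
      ext x
      simp [Module.End.mul_apply, hwE, h0]
  have hh1 : Half A v w θ :=
    { eig := hvA
      tri := fun i j hij => (hent' i j).1 (h.far_star i j (by
        rw [abs_of_nonneg] <;> omega))
      sub := fun i j hij => fun h0 => h.near_star i j (by
        rw [abs_of_nonneg] <;> omega) ((hent' i j).2 h0) }
  have hh2 : Half A v (w.reindex Fin.revPerm) θ :=
    { eig := hvA
      tri := fun i j hij => by
        rw [Basis.repr_reindex_apply, Basis.reindex_apply]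
        refine (hent' _ _).1 (h.far_star _ _ ?_)
        simp only [Fin.revPerm_symm, Fin.revPerm_apply, Fin.val_rev]
        rw [abs_of_nonpos] <;> omega
      sub := fun i j hij => by
        rw [Basis.repr_reindex_apply, Basis.reindex_apply]
        intro h0
        refine h.near_star _ _ ?_ ((hent' _ _).2 h0)
        simp only [Fin.revPerm_symm, Fin.revPerm_apply, Fin.val_rev]
        rw [abs_of_nonpos] <;> omega }
  have hh4 : Half As w v θs :=
    { eig := hwA
      tri := fun i j hij => (hent i j).1 (h.far i j (by
        rw [abs_of_nonneg] <;> omega))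
      sub := fun i j hij => fun h0 => h.near i j (by
        rw [abs_of_nonneg] <;> omega) ((hent i j).2 h0) }
  have hh3 : Half As w (v.reindex Fin.revPerm) θs :=
    { eig := hwA
      tri := fun i j hij => by
        rw [Basis.repr_reindex_apply, Basis.reindex_apply]
        refine (hent _ _).1 (h.far _ _ ?_)
        simp only [Fin.revPerm_symm, Fin.revPerm_apply, Fin.val_rev]
        rw [abs_of_nonpos] <;> omega
      sub := fun i j hij => by
        rw [Basis.repr_reindex_apply, Basis.reindex_apply]
        intro h0
        refine h.near _ _ ?_ ((hent _ _).2 h0)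
        simp only [Fin.revPerm_symm, Fin.revPerm_apply, Fin.val_rev]
        rw [abs_of_nonpos] <;> omega }
  rw [eq_top_iff]
  intro T _
  refine core hh1 hh2 hh3 hh4 B r ?_ ?_ T
  · intro i hi S hS
    have : S = Es i := by ext x; rw [hS, hwE]
    rw [this]; exact hB1 i hi
  · intro i hi S hS
    have : S = E i := by ext x; rw [hS, hvE]
    rw [this]; exact hB2 i hi

end Core

theorem IsIdempotentOrdering.map {K : Type*} {R S : Type*} [Field K] [Ring R] [Algebra K R]
    [Ring S] [Algebra K S] {d : ℕ} (e : R ≃ₐ[K] S) {X : R} {E : Fin (d + 1) → R}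
    (h : IsIdempotentOrdering K X E) : IsIdempotentOrdering K (e X) (fun i => e (E i)) := by
  obtain ⟨θ, h1, h2, h3⟩ := h
  refine ⟨θ, h1, fun i => ?_, fun i => ?_⟩
  · rw [AlgEquiv.spectrum_eq]; exact h2 i
  · change e (E i) = _
    rw [h3, Polynomial.aeval_algEquiv]
    rfl

/-- For every field `K`, every `d`, every `K`-algebra `R` isomorphic to `Mat_{d+1}(K)`, every
Leonard system `(A; E; As; Es)` in `R` and every `0 ≤ r ≤ d`, the elements
`Es 0, ..., Es r, E r, ..., E d` together generate `R`. -/
theorem result {K R : Type*} [Field K] [Ring R] [Algebra K R] (d : ℕ)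
    (hR : Nonempty (R ≃ₐ[K] Matrix (Fin (d + 1)) (Fin (d + 1)) K))
    (A : R) (E : Fin (d + 1) → R) (As : R) (Es : Fin (d + 1) → R)
    (h : IsLeonardSystem K A E As Es) (r : Fin (d + 1)) :
    Algebra.adjoin K ({x | ∃ i, i ≤ r ∧ x = Es i} ∪ {x | ∃ i, r ≤ i ∧ x = E i}) = ⊤ := by
  obtain ⟨e0⟩ := hR
  let e : R ≃ₐ[K] End K (Fin (d + 1) → K) := e0.trans Matrix.toLinAlgEquiv'
  have hL : IsLeonardSystem K (e A) (fun i => e (E i)) (e As) (fun i => e (Es i)) :=
    { idem := h.idem.map e
      idem_star := h.idem_star.map e
      far := fun i j hij => by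
        rw [← map_mul, ← map_mul, h.far i j hij, map_zero]
      near := fun i j hij => by
        rw [← map_mul, ← map_mul]
        exact fun h0 => h.near i j hij (e.injective (by rw [h0, map_zero]))
      far_star := fun i j hij => by
        rw [← map_mul, ← map_mul, h.far_star i j hij, map_zero]
      near_star := fun i j hij => by
        rw [← map_mul, ← map_mul]
        exact fun h0 => h.near_star i j hij (e.injective (by rw [h0, map_zero])) }
  have hB := end_version (V := Fin (d + 1) → K) (by simp) hL
    ((Algebra.adjoin K ({x | ∃ i, i ≤ r ∧ x = Es i} ∪ {x | ∃ i, r ≤ i ∧ x = E i})).map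
      (e : R →ₐ[K] End K (Fin (d + 1) → K))) r ?_ ?_
  · rw [eq_top_iff]
    intro x _
    have hx : e x ∈ ((Algebra.adjoin K ({x | ∃ i, i ≤ r ∧ x = Es i} ∪
        {x | ∃ i, r ≤ i ∧ x = E i})).map (e : R →ₐ[K] End K (Fin (d + 1) → K))) := by
      rw [hB]; trivial
    obtain ⟨y, hy, hyx⟩ := hx
    have : y = x := e.injective hyx
    rw [← this]; exact hy
  · intro i hi
    exact ⟨Es i, Algebra.subset_adjoin (Or.inl ⟨i, hi, rfl⟩), rfl⟩
  · intro i hi
    exact ⟨E i, Algebra.subset_adjoin (Or.inr ⟨i, hi, rfl⟩), rfl⟩

end Pool.Agent.Results.MP_9ad7dc_al.Generate
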